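import Mathlib

namespace Pool.Agent.Results.MP_543b9c_al.Unbounded

/-- A loop `(Q, *, ldiv, rdiv, 1)`; `ldiv a b` solves `a * x = b`, `rdiv b a` solves
`x * a = b`, uniquely. -/
class Loop (Q : Type) extends Mul Q, One Q where
  ldiv : Q → Q → Q
  rdiv : Q → Q → Q
  one_mul : ∀ a : Q, 1 * a = a
  mul_one : ∀ a : Q, a * 1 = a
  mul_ldiv : ∀ a b : Q, a * ldiv a b = b
  ldiv_mul : ∀ a b : Q, ldiv a (a * b) = b
  rdiv_mul : ∀ a b : Q, rdiv b a * a = b
  mul_rdiv : ∀ a b : Q, rdiv (b * a) a = b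

/-- Terms in the three loop operations with variables from `ι` and constants from `Q`. -/
inductive Poly (Q ι : Type) : Type
  | var : ι → Poly Q ι
  | const : Q → Poly Q ι
  | mul : Poly Q ι → Poly Q ι → Poly Q ι
  | ldiv : Poly Q ι → Poly Q ι → Poly Q ι
  | rdiv : Poly Q ι → Poly Q ι → Poly Q ι

/-- The polynomial operation given by a term. -/
def Poly.eval {Q ι : Type} [Loop Q] (ρ : ι → Q) : Poly Q ι → Q
  | .var i => ρ i
  | .const c => c
  | .mul p q => p.eval ρ * q.eval ρ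
  | .ldiv p q => Loop.ldiv (p.eval ρ) (q.eval ρ)
  | .rdiv p q => Loop.rdiv (p.eval ρ) (q.eval ρ)

/-- The value `p(x_1, ..., x_k, u)` on tuples `x_i` of length `m i` and `u` of length `l`. -/
def Poly.at {Q : Type} [Loop Q] {k l : ℕ} {m : Fin k → ℕ}
    (p : Poly Q ((Σ i : Fin k, Fin (m i)) ⊕ Fin l)) (x : ∀ i, Fin (m i) → Q) (u : Fin l → Q) :
    Q :=
  p.eval (Sum.elim (fun s => x s.1 s.2) u)

/-- `k`-supernilpotence, by the term condition. -/
def SuperNil (Q : Type) [Loop Q] (k : ℕ) : Prop :=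
  ∀ (m : Fin k → ℕ) (l : ℕ) (p : Poly Q ((Σ i : Fin k, Fin (m i)) ⊕ Fin l))
    (a b : ∀ i, Fin (m i) → Q) (u v : Fin l → Q), (∀ i, a i ≠ b i) →
    (∀ x : ∀ i, Fin (m i) → Q, (∀ i, x i = a i ∨ x i = b i) → x ≠ b → p.at x u = p.at x v) →
    p.at b u = p.at b v

/-- The supernilpotence class: the least `k ≥ 1` with `Q` `k`-supernilpotent, or `⊤`. -/
noncomputable def clsn (Q : Type) [Loop Q] : ℕ∞ :=
  ⨅ k ∈ {k : ℕ | 1 ≤ k ∧ SuperNil Q k}, (k : ℕ∞)

/-- The multiplication group, generated by all left and right translations. -/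
def Mlt (Q : Type) [Loop Q] : Subgroup (Equiv.Perm Q) :=
  Subgroup.closure {g | ∃ a : Q, (∀ x, g x = a * x) ∨ (∀ x, g x = x * a)}

/-- Normal subloops: subloops invariant under the stabiliser of `1` in `Mlt Q`. -/
structure IsNormal {Q : Type} [Loop Q] (N : Set Q) : Prop where
  one_mem : (1 : Q) ∈ N
  mul_mem : ∀ x ∈ N, ∀ y ∈ N, x * y ∈ N
  ldiv_mem : ∀ x ∈ N, ∀ y ∈ N, Loop.ldiv x y ∈ N
  rdiv_mem : ∀ x ∈ N, ∀ y ∈ N, Loop.rdiv x y ∈ N
  inv : ∀ g ∈ Mlt Q, g 1 = 1 → ∀ x ∈ N, g x ∈ N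

/-- The coset `xN`, an element of `Q/N`; there `(xN)(yN) = (xy)N`. -/
def coset {Q : Type} [Loop Q] (N : Set Q) (x : Q) : Set Q := (fun n => x * n) '' N

/-- `aN` lies in the center of `Q/N`. -/
def CentralMod {Q : Type} [Loop Q] (N : Set Q) (a : Q) : Prop :=
  ∀ x y : Q, coset N (a * x) = coset N (x * a) ∧
    coset N (a * (x * y)) = coset N ((a * x) * y) ∧
    coset N (x * (a * y)) = coset N ((x * a) * y) ∧
    coset N (x * (y * a)) = coset N ((x * y) * a)

/-- There is a central series `1 = N_0 ≤ ... ≤ N_k = Q`. -/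
def HasCentralSeries (Q : Type) [Loop Q] (k : ℕ) : Prop :=
  ∃ N : ℕ → Set Q, N 0 = {1} ∧ N k = Set.univ ∧ (∀ i ≤ k, IsNormal (N i)) ∧
    ∀ i < k, N i ⊆ N (i + 1) ∧ ∀ a ∈ N (i + 1), CentralMod (N i) a

/-- The central nilpotence class, or `⊤`. -/
noncomputable def clcn (Q : Type) [Loop Q] : ℕ∞ :=
  ⨅ k ∈ {k : ℕ | HasCentralSeries Q k}, (k : ℕ∞)

/-! ### The examples -/

abbrev V (n : ℕ) := Fin (n + 2) → ZMod 2

@[ext] structure QQ (n : ℕ) where
  c : ZMod 2
  v : V n

def w1 (n : ℕ) : V n := Pi.single 0 1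
def w (n : ℕ) : V n := fun _ => 1

lemma w1_ne_w (n : ℕ) : w1 n ≠ w n := by
  intro h
  have := congrFun h 1
  simp [w1, w] at this

lemma w1_ne (n : ℕ) : w1 n ≠ 0 := by
  intro h
  have := congrFun h 0
  simp [w1] at this

lemma w_ne (n : ℕ) : w n ≠ 0 := by
  intro h
  have := congrFun h 0
  simp [w] at this

def θ {n : ℕ} (a b : V n) : ZMod 2 := if a = w1 n ∧ b = w n then 1 else 0

lemma θ_zero_left {n : ℕ} (b : V n) : θ 0 b = 0 := by
  simp [θ, (w1_ne n).symm]

lemma θ_zero_right {n : ℕ} (a : V n) : θ a 0 = 0 := by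
  simp [θ, (w_ne n).symm]

instance (n : ℕ) : Mul (QQ n) := ⟨fun x y => ⟨x.c + y.c + θ x.v y.v, x.v + y.v⟩⟩
instance (n : ℕ) : One (QQ n) := ⟨⟨0, 0⟩⟩

@[simp] lemma mul_c {n : ℕ} (x y : QQ n) : (x * y).c = x.c + y.c + θ x.v y.v := rfl
@[simp] lemma mul_v {n : ℕ} (x y : QQ n) : (x * y).v = x.v + y.v := rfl
@[simp] lemma one_c {n : ℕ} : (1 : QQ n).c = 0 := rfl
@[simp] lemma one_v {n : ℕ} : (1 : QQ n).v = 0 := rfl

instance loopQQ (n : ℕ) : Loop (QQ n) where
  ldiv x y := ⟨y.c - x.c - θ x.v (y.v - x.v), y.v - x.v⟩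
  rdiv y x := ⟨y.c - x.c - θ (y.v - x.v) x.v, y.v - x.v⟩
  one_mul a := by ext <;> simp [θ_zero_left]
  mul_one a := by ext <;> simp [θ_zero_right]
  mul_ldiv a b := by
    ext1
    · simp only [mul_c, mul_v, add_sub_cancel_left, add_sub_cancel_right]; ring
    · simp
  ldiv_mul a b := by
    ext1
    · simp only [mul_c, mul_v, add_sub_cancel_left, add_sub_cancel_right]; ring
    · simp
  rdiv_mul a b := by
    ext1
    · simp only [mul_c, mul_v, add_sub_cancel_left, add_sub_cancel_right]; ring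
    · simp
  mul_rdiv a b := by
    ext1
    · simp only [mul_c, mul_v, add_sub_cancel_left, add_sub_cancel_right]; ring
    · simp

@[simp] lemma ldiv_c {n : ℕ} (x y : QQ n) :
    (Loop.ldiv x y).c = y.c - x.c - θ x.v (y.v - x.v) := rfl
@[simp] lemma ldiv_v {n : ℕ} (x y : QQ n) : (Loop.ldiv x y).v = y.v - x.v := rfl
@[simp] lemma rdiv_c {n : ℕ} (x y : QQ n) :
    (Loop.rdiv y x).c = y.c - x.c - θ (y.v - x.v) x.v := rfl
@[simp] lemma rdiv_v {n : ℕ} (x y : QQ n) : (Loop.rdiv y x).v = y.v - x.v := rfl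

instance (n : ℕ) : Finite (QQ n) :=
  Finite.of_injective (fun x : QQ n => (x.c, x.v)) (fun x y h => by
    simp only [Prod.mk.injEq] at h
    exact QQ.ext h.1 h.2)

abbrev E (k : ℕ) := (Fin k → ZMod 2) × ZMod 2

lemma finrank_E (k : ℕ) : Module.finrank (ZMod 2) (E k) = k + 1 := by
  simp [E, Module.finrank_prod]

lemma sum_zero {k : ℕ} {W : Type} [AddCommGroup W] [Module (ZMod 2) W]
    [Module.Finite (ZMod 2) W] (hW : Module.finrank (ZMod 2) W < k + 1)
    (L : E k →ₗ[ZMod 2] W) (g : W → ZMod 2) : ∑ ε : E k, g (L ε) = 0 := by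
  have hni : ¬ Function.Injective L := fun h => by
    have := LinearMap.finrank_le_finrank_of_injective h
    rw [finrank_E] at this
    omega
  rw [← LinearMap.ker_eq_bot] at hni
  obtain ⟨τ, hτ, hτ0⟩ := Submodule.exists_mem_ne_zero_of_ne_bot hni
  rw [LinearMap.mem_ker] at hτ
  have h2 : τ + τ = 0 := by
    rw [← two_smul (ZMod 2) τ]
    have : (2 : ZMod 2) = 0 := rfl
    rw [this, zero_smul]
  refine Finset.sum_ninvolution (fun ε => ε + τ) ?_ ?_ (fun _ => Finset.mem_univ _) ?_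
  · intro ε
    rw [map_add, hτ, add_zero]
    exact CharTwo.add_self_eq_zero _
  · intro ε _ h
    exact hτ0 (by simpa using h)
  · intro ε
    rw [add_assoc, h2, add_zero]

def Good {n k : ℕ} (F : E k → QQ n) : Prop :=
  (∃ (β : V n) (L : E k →ₗ[ZMod 2] V n), ∀ ε, (F ε).v = β + L ε) ∧ ∑ ε : E k, (F ε).c = 0

lemma sum_θ {n k : ℕ} (hk : 2 * (n + 2) ≤ k) (β γ : V n) (L M : E k →ₗ[ZMod 2] V n) :
    ∑ ε : E k, θ (β + L ε) (γ + M ε) = 0 := by
  have := sum_zero (k := k) (W := V n × V n) (by simp [Module.finrank_prod]; omega) (L.prod M)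
    (fun z => θ (β + z.1) (γ + z.2))
  simpa using this

lemma good_eval {n k : ℕ} (hk : 2 * (n + 2) ≤ k) {ι : Type} (ρ : E k → ι → QQ n)
    (hρ : ∀ i, Good (fun ε => ρ ε i)) (p : Poly (QQ n) ι) : Good (fun ε => p.eval (ρ ε)) := by
  induction p with
  | var i => exact hρ i
  | const c =>
    refine ⟨⟨c.v, 0, fun ε => by simp [Poly.eval]⟩, ?_⟩
    have := sum_zero (k := k) (W := ZMod 2) (by simp; omega) 0 (fun _ => c.c)
    simpa [Poly.eval] using this
  | mul p q hp hq =>
    obtain ⟨⟨β, L, h1⟩, h2⟩ := hp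
    obtain ⟨⟨γ, M, h3⟩, h4⟩ := hq
    refine ⟨⟨β + γ, L + M, fun ε => ?_⟩, ?_⟩
    · simp only [Poly.eval, mul_v, LinearMap.add_apply] at *
      rw [h1, h3]; abel
    · simp only [Poly.eval, mul_c] at *
      rw [Finset.sum_add_distrib, Finset.sum_add_distrib, h2, h4]
      simp only [h1, h3, sum_θ hk, add_zero]
  | ldiv p q hp hq =>
    obtain ⟨⟨β, L, h1⟩, h2⟩ := hp
    obtain ⟨⟨γ, M, h3⟩, h4⟩ := hq
    have h5 : ∀ ε, (Poly.eval (ρ ε) q).v - (Poly.eval (ρ ε) p).v = (γ - β) + (M - L) ε := by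
      intro ε
      simp only [LinearMap.sub_apply] at *
      rw [h1, h3]; abel
    refine ⟨⟨γ - β, M - L, fun ε => ?_⟩, ?_⟩
    · simp only [Poly.eval, ldiv_v]
      exact h5 ε
    · simp only [Poly.eval, ldiv_c] at *
      rw [Finset.sum_sub_distrib, Finset.sum_sub_distrib, h2, h4]
      simp only [h5]
      simp only [h1, sum_θ hk, sub_zero]
  | rdiv p q hp hq =>
    obtain ⟨⟨β, L, h1⟩, h2⟩ := hp
    obtain ⟨⟨γ, M, h3⟩, h4⟩ := hq
    have h5 : ∀ ε, (Poly.eval (ρ ε) p).v - (Poly.eval (ρ ε) q).v = (β - γ) + (L - M) ε := by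
      intro ε
      simp only [LinearMap.sub_apply] at *
      rw [h1, h3]; abel
    refine ⟨⟨β - γ, L - M, fun ε => ?_⟩, ?_⟩
    · simp only [Poly.eval, rdiv_v]
      exact h5 ε
    · simp only [Poly.eval, rdiv_c] at *
      rw [Finset.sum_sub_distrib, Finset.sum_sub_distrib, h2, h4]
      simp only [h5]
      simp only [h3, sum_θ hk, sub_zero]

lemma zmod2 (t : ZMod 2) : t = 0 ∨ t = 1 := by
  revert t; decide

lemma good_pick {n k : ℕ} (hk : 1 ≤ k) (φ : E k →ₗ[ZMod 2] ZMod 2) (a b : QQ n) :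
    Good (fun ε : E k => if φ ε = 1 then b else a) := by
  refine ⟨⟨a.v, φ.smulRight (b.v - a.v), fun ε => ?_⟩, ?_⟩
  · rcases zmod2 (φ ε) with h | h <;> simp [h]
  · exact sum_zero (k := k) (W := ZMod 2) (by simp; omega) φ
      (fun t => (if t = 1 then b else a).c)

lemma superNil {n k : ℕ} (hk : 2 * (n + 2) ≤ k) : SuperNil (QQ n) k := by
  intro m l p a b u v hab h
  let x : (Fin k → ZMod 2) → ∀ i, Fin (m i) → QQ n := fun δ i => if δ i = 1 then b i else a i
  let y : ZMod 2 → Fin l → QQ n := fun t => if t = 1 then v else u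
  have hg : Good (fun ε : E k => p.at (x ε.1) (y ε.2)) := by
    refine good_eval hk (fun ε : E k => Sum.elim (fun s => x ε.1 s.1 s.2) (y ε.2)) ?_ p
    rintro (⟨i, j⟩ | j)
    · have := good_pick (n := n) (k := k) (by omega)
        ((LinearMap.proj i).comp (LinearMap.fst (ZMod 2) _ _)) (a i j) (b i j)
      convert this using 2 with ε
      simp only [Sum.elim_inl, x, LinearMap.comp_apply, LinearMap.fst_apply,
        LinearMap.proj_apply]
      split_ifs <;> rfl
    · have := good_pick (n := n) (k := k) (by omega) (LinearMap.snd (ZMod 2) _ _) (u j) (v j)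
      convert this using 2 with ε
      simp only [Sum.elim_inr, y, LinearMap.snd_apply]
      split_ifs <;> rfl
  have hx1 : x 1 = b := by
    funext i; simp [x]
  have hy0 : y 0 = u := by simp [y]
  have hy1 : y 1 = v := by simp [y]
  have hδ : ∀ δ : Fin k → ZMod 2, δ ≠ 1 → p.at (x δ) u = p.at (x δ) v := by
    intro δ hδ
    refine h _ (fun i => ?_) ?_
    · simp only [x]; split_ifs <;> simp
    · intro hxb
      apply hδ
      funext i
      by_contra hi
      have := congrFun hxb i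
      simp only [x] at this
      rw [if_neg (by simpa using hi)] at this
      exact hab i this
  obtain ⟨⟨β, L, h1⟩, h2⟩ := hg
  have h01 : (0 : Fin k → ZMod 2) ≠ 1 := by
    intro h0
    have := congrFun h0 ⟨0, by omega⟩
    simp at this
  ext1
  · rw [Fintype.sum_prod_type, Finset.sum_eq_single (1 : Fin k → ZMod 2)] at h2
    · have hu : (Finset.univ : Finset (ZMod 2)) = {0, 1} := by decide
      rw [hu, Finset.sum_pair (by decide)] at h2
      simp only [hx1, hy0, hy1] at h2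
      exact (CharTwo.add_eq_zero).1 h2
    · intro δ _ hd
      have hu : (Finset.univ : Finset (ZMod 2)) = {0, 1} := by decide
      rw [hu, Finset.sum_pair (by decide)]
      simp only [hy0, hy1, hδ δ hd]
      exact CharTwo.add_self_eq_zero _
    · simp
  · have e1 := h1 (0, 0)
    have e2 := h1 (0, 1)
    have e3 := h1 (1, 0)
    have e4 := h1 (1, 1)
    simp only [hx1, hy0, hy1] at e1 e2 e3 e4
    rw [hδ 0 h01, e2] at e1
    have e5 : L (0, 1) = 0 := by
      have : L (0, 0) = 0 := map_zero L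
      rw [this] at e1
      simpa using e1
    have e6 : L (1, 1) = L (1, 0) + L (0, 1) := by
      rw [← map_add]; simp
    rw [e3, e4, e6, e5, add_zero]

def prodTerm {Q ι : Type} (z : Poly Q ι) : List ι → Poly Q ι
  | [] => z
  | i :: t => .mul (.var i) (prodTerm z t)

lemma prodTerm_v {n : ℕ} {ι : Type} (ρ : ι → QQ n) (z : Poly (QQ n) ι) (t : List ι) :
    ((prodTerm z t).eval ρ).v = (t.map (fun i => (ρ i).v)).sum + (z.eval ρ).v := by
  induction t with
  | nil => simp [prodTerm]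
  | cons i t ih => simp [prodTerm, Poly.eval, ih, add_assoc]

lemma not_superNil {n k : ℕ} (hk : k ≤ n + 1) : ¬ SuperNil (QQ n) k := by
  intro h
  let e : Fin k → Fin (n + 2) := fun i => ⟨i, by omega⟩
  have he : Function.Injective e := fun i j hij => Fin.ext (by simpa [e] using hij)
  let ι := (Σ _ : Fin k, Fin 1) ⊕ Fin 1
  let s : Poly (QQ n) ι :=
    prodTerm (.var (Sum.inr 0)) ((List.finRange k).map (fun i => Sum.inl ⟨i, 0⟩))
  let p : Poly (QQ n) ι := .ldiv s (.mul (.const ⟨0, w1 n⟩) s)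
  let r : V n := w n - ∑ i : Fin k, Pi.single (e i) 1
  have hp : ∀ (x : ∀ _ : Fin k, Fin 1 → QQ n) (u : Fin 1 → QQ n),
      Poly.at (m := fun _ => 1) p x u =
        ⟨if ∑ i, (x i 0).v + (u 0).v = w n then 1 else 0, w1 n⟩ := by
    intro x u
    have hs : (s.eval (Sum.elim (fun s => x s.1 s.2) u)).v = ∑ i, (x i 0).v + (u 0).v := by
      simp only [s, prodTerm_v, List.map_map, Poly.eval, Sum.elim_inr]
      rw [Fin.sum_univ_def]
      rfl
    ext1
    · simp only [Poly.at, p, Poly.eval, ldiv_c, mul_c, mul_v, hs]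
      simp [θ, w1_ne_w]
    · simp [Poly.at, p, Poly.eval]
  have hlast : ∀ i, e i ≠ Fin.last (n + 1) := by
    intro i hi
    have := congrArg Fin.val hi
    simp [e] at this
    omega
  have := h (fun _ => 1) 1 p (fun _ _ => 1) (fun i _ => ⟨0, Pi.single (e i) 1⟩) (fun _ => 1)
    (fun _ => ⟨0, r⟩) ?_ ?_
  · rw [hp, hp] at this
    have h2 := congrArg QQ.c this
    simp only [r] at h2
    rw [if_neg, if_pos (by simp)] at h2
    · exact absurd h2 (by decide)
    · intro h3
      have := congrFun h3 (Fin.last (n + 1))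
      simp [w, Finset.sum_apply, fun i => (hlast i).symm] at this
  · intro i hi
    have := congrFun (congrArg QQ.v (congrFun hi 0)) (e i)
    simp at this
  · intro x hx hxb
    rw [hp, hp]
    obtain ⟨j, hj⟩ := Function.ne_iff.1 hxb
    have hxj : x j = fun _ => 1 := (hx j).resolve_right hj
    have hcoord : ∀ c : Fin (n + 2), (c = e j ∨ c = Fin.last (n + 1)) →
        ∑ i, (x i 0).v c = 0 := by
      intro c hc
      refine Finset.sum_eq_zero (fun i _ => ?_)
      rcases hx i with h1 | h1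
      · simp [h1]
      · rcases hc with rfl | rfl
        · have hij : j ≠ i := by
            rintro rfl
            exact hj h1
          simp [h1, he.ne hij]
        · simp [h1, (hlast i).symm]
    rw [if_neg, if_neg]
    · intro h3
      have := congrFun h3 (e j)
      simp [Finset.sum_apply, hcoord _ (Or.inl rfl), r, w, Pi.single_apply, he.eq_iff] at this
    · intro h3
      have := congrFun h3 (Fin.last (n + 1))
      simp [Finset.sum_apply, hcoord _ (Or.inr rfl), w] at this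

lemma coset_one {Q : Type} [Loop Q] (x : Q) : coset {1} x = {x} := by
  simp [coset, Loop.mul_one]

lemma mlt_central {n : ℕ} (g : Equiv.Perm (QQ n)) (hg : g ∈ Mlt (QQ n)) :
    ∀ x y : QQ n, x.v = y.v → (g x).v = (g y).v := by
  have key : ∀ x y : QQ n, x.v = y.v ↔ (g x).v = (g y).v := by
    induction hg using Subgroup.closure_induction with
    | mem g hg =>
      obtain ⟨a, h | h⟩ := hg <;> intro x y <;> simp [h]
    | one => simp
    | mul g h _ _ hg hh =>
      intro x y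
      rw [hh, hg]; rfl
    | inv g _ hg =>
      intro x y
      rw [hg (g⁻¹ x) (g⁻¹ y)]; simp
  exact fun x y h => (key x y).1 h

lemma coset_Z {n : ℕ} (x : QQ n) : coset {z : QQ n | z.v = 0} x = {z | z.v = x.v} := by
  ext z
  simp only [coset, Set.mem_image, Set.mem_ofPred_eq]
  constructor
  · rintro ⟨y, hy, rfl⟩
    simp [hy]
  · intro hz
    exact ⟨Loop.ldiv x z, by simp [hz], Loop.mul_ldiv x z⟩

lemma series_two (n : ℕ) : HasCentralSeries (QQ n) 2 := by
  refine ⟨fun i => if i = 0 then {1} else if i = 1 then {z | z.v = 0} else Set.univ,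
    by simp, by simp, ?_, ?_⟩
  · intro i hi
    interval_cases i
    · refine ⟨by simp, ?_, ?_, ?_, ?_⟩
      · simp [Loop.mul_one]
      · simp only [if_true, Set.mem_singleton_iff]
        rintro _ rfl _ rfl
        ext <;> simp [θ_zero_left]
      · simp only [if_true, Set.mem_singleton_iff]
        rintro _ rfl _ rfl
        ext <;> simp [θ_zero_left]
      · simp only [if_true, Set.mem_singleton_iff]
        rintro g _ h1 _ rfl
        exact h1
    · refine ⟨by simp, ?_, ?_, ?_, ?_⟩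
      · simp +contextual
      · simp +contextual
      · simp +contextual
      · intro g hg h1 x hx
        have := mlt_central g hg x 1 (by simpa using hx)
        simpa [h1] using this
    · exact ⟨by simp, by simp, by simp, by simp, by simp⟩
  · intro i hi
    interval_cases i
    · refine ⟨by simp, fun a ha x y => ?_⟩
      have ha0 : a.v = 0 := by simpa using ha
      simp only [if_true, coset_one, Set.singleton_eq_singleton_iff]
      refine ⟨?_, ?_, ?_, ?_⟩ <;> ext1 <;> simp [ha0, θ_zero_left, θ_zero_right] <;> abel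
    · refine ⟨by simp, fun a _ x y => ?_⟩
      simp only [one_ne_zero, if_false, if_true, coset_Z, mul_v]
      refine ⟨?_, ?_, ?_, ?_⟩
      · rw [add_comm]
      · rw [add_assoc]
      · rw [add_assoc]
      · rw [add_assoc]

lemma series_ge (n k : ℕ) (h : HasCentralSeries (QQ n) k) : 2 ≤ k := by
  obtain ⟨N, h0, hk, -, hc⟩ := h
  by_contra hlt
  have hlt : k < 2 := by omega
  interval_cases k
  · have : (⟨1, 0⟩ : QQ n) ∈ N 0 := by rw [hk]; trivial
    rw [h0] at this
    exact absurd (congrArg QQ.c this) (by simp)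
  · have := ((hc 0 (by omega)).2 ⟨0, w1 n⟩ (by rw [zero_add, hk]; trivial) ⟨0, w n⟩ 1).1
    rw [h0, coset_one, coset_one, Set.singleton_eq_singleton_iff] at this
    have h2 := congrArg QQ.c this
    simp [θ, w1_ne_w] at h2

lemma main (K : ℕ) : clsn (QQ K) < ⊤ ∧ clcn (QQ K) = 2 ∧ (K : ℕ∞) < clsn (QQ K) := by
  refine ⟨?_, ?_, ?_⟩
  · refine lt_of_le_of_lt (iInf₂_le (2 * (K + 2)) ⟨by omega, superNil le_rfl⟩) ?_
    exact ENat.natCast_lt_top _
  · refine le_antisymm (iInf₂_le_of_le 2 (series_two K) (by simp)) (le_iInf₂ fun k hk => ?_)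
    exact_mod_cast series_ge K k hk
  · refine lt_of_lt_of_le (b := ((K + 1 : ℕ) : ℕ∞)) (by exact_mod_cast Nat.lt_succ_self K)
      (le_iInf₂ fun k hk => ?_)
    have : K + 1 ≤ k := by
      by_contra hlt
      exact not_superNil (by omega) hk.2
    exact_mod_cast this

theorem result :
    (∀ K : ℕ, ∃ (Q : Type) (_ : Loop Q), Finite Q ∧ clsn Q < ⊤ ∧ clcn Q = 2 ∧
      (K : ℕ∞) < clsn Q) ∧
    ¬ ∃ f : ℕ → ℕ, ∀ (Q : Type) [Loop Q], clsn Q < ⊤ → ∀ c : ℕ, clcn Q = c →
      clsn Q ≤ f c := by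
  refine ⟨fun K => ⟨QQ K, inferInstance, inferInstance, main K⟩, ?_⟩
  rintro ⟨f, hf⟩
  obtain ⟨h1, h2, h3⟩ := main (f 2)
  exact absurd (hf _ h1 2 h2) (not_le.2 h3)

end Pool.Agent.Results.MP_543b9c_al.Unbounded
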